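import Pool.Agent.V11199.TG.Final

/-!
# Every `[n]` has a 3-good partition
-/

namespace Pool.Agent.Results.MP_b44c8b_co.ThreeGood

/-- For every `n` the set `{1, …, n}` can be partitioned into nonempty parts (the parts of a
`Finpartition` are nonempty and pairwise disjoint) of size at most `3`, each with sum a power
of `3`. -/
theorem result (n : ℕ) :
    ∃ P : Finpartition (Finset.Icc 1 n),
      ∀ S ∈ P.parts, S.card ≤ 3 ∧ ∃ j : ℕ, ∑ x ∈ S, x = 3 ^ j :=
  (Pool.Agent.V11199.TG.good_Icc n).finpartition

end Pool.Agent.Results.MP_b44c8b_co.ThreeGood
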